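import Pool.Agent.Helper11.NH.Sheet
open MeasureTheory Metric Set Filter Topology Real
open scoped ENNReal NNReal

/-!
Row DISJ: the pieces behind the ends of the arms are disjoint from each other and meet the tree only
in the ends of the arms.
-/

namespace H11ST
namespace NH
namespace Disj27

/-- the cones at `v` of the directions `±60°` to `±120°` do not meet the ray behind `v` -/
theorem cone_ray {v : E 2} {β σ t : ℝ} (hσ : σ = 1 ∨ σ = -1)
    (h : v - t • ev β ∈ cone v β σ) : t = 0 := by
  obtain ⟨p, q, hp, hq, e⟩ := h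
  have e1 : (-t) • ev β = p • ev (β + σ * (π / 3)) + q • ev (β + σ * (2 * π / 3)) := by
    have e2 : v - t • ev β - v =
        v + p • ev (β + σ * (π / 3)) + q • ev (β + σ * (2 * π / 3)) - v := by rw [e]
    rw [neg_smul]
    calc -(t • ev β) = v - t • ev β - v := by abel
      _ = _ := e2
      _ = _ := by abel
  have c1 : Real.cos (β - (β + σ * (π / 2))) = 0 := by
    rcases hσ with rfl | rfl
    · rw [show β - (β + 1 * (π / 2)) = -(π / 2) by ring, Real.cos_neg, Real.cos_pi_div_two]
    · rw [show β - (β + -1 * (π / 2)) = π / 2 by ring, Real.cos_pi_div_two]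
  have c2 : Real.cos (β + σ * (π / 3) - (β + σ * (π / 2))) = √3 / 2 := by
    rcases hσ with rfl | rfl
    · rw [show β + 1 * (π / 3) - (β + 1 * (π / 2)) = -(π / 6) by ring, Real.cos_neg,
        Real.cos_pi_div_six]
    · rw [show β + -1 * (π / 3) - (β + -1 * (π / 2)) = π / 6 by ring, Real.cos_pi_div_six]
  have c3 : Real.cos (β + σ * (2 * π / 3) - (β + σ * (π / 2))) = √3 / 2 := by
    rcases hσ with rfl | rfl
    · rw [show β + 1 * (2 * π / 3) - (β + 1 * (π / 2)) = π / 6 by ring, Real.cos_pi_div_six]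
    · rw [show β + -1 * (2 * π / 3) - (β + -1 * (π / 2)) = -(π / 6) by ring, Real.cos_neg,
        Real.cos_pi_div_six]
  have e3 := congrArg (fun z => inner ℝ z (ev (β + σ * (π / 2)))) e1
  simp only [inner_add_left, real_inner_smul_left, inner_ev, c1, c2, c3] at e3
  have h3 : (0 : ℝ) < √3 := Real.sqrt_pos.2 (by norm_num)
  have hpq : p + q = 0 := by nlinarith
  have hp0 : p = 0 := by linarith
  have hq0 : q = 0 := by linarith
  rw [hp0, hq0, zero_smul, zero_smul, add_zero] at e1
  have hn := congrArg norm e1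
  rw [norm_smul, norm_ev, mul_one, norm_zero, norm_eq_zero, neg_eq_zero] at hn
  exact hn

/-- a piece meets its own arm only in the end of the arm -/
theorem own {φ : ℝ} {s : Fin 3 → E 2} {a : Fin 2 → ℝ} {v : Fin 5 → E 2} {c : Fin 5 → ℝ}
    (G : Geo φ s a v c) {S : Set (E 2)} {K : Fin 5 → Set (E 2)} {pp pm : Fin 5 → E 2}
    (F : Fam S φ v K pp pm) (i : Fin 5) {w : E 2} (hw : w ∈ K i)
    (hs : w ∈ segment ℝ (s (ft i)) (v i)) : w = v i := by
  rw [segment_eq_image'] at hs
  obtain ⟨θ, hθ, rfl⟩ := hs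
  have e : s (ft i) + θ • (v i - s (ft i)) = v i - ((1 - θ) * c i) • ev (φ + dl i) := by
    have := G.vd i
    have h2 : s (ft i) = v i - c i • ev (φ + dl i) := by
      rw [this]; unfold dv; abel
    rw [h2]
    module
  have h0 : (1 - θ) * c i = 0 := by
    rcases F.cone i hw with h | h
    · simp only [e] at h
      exact cone_ray (Or.inl rfl) h
    · simp only [e] at h
      exact cone_ray (Or.inr rfl) h
  simp only [e, h0, zero_smul, sub_zero]

/-- an arm is a bridge -/
theorem bridge (hE : NH_EXCH) (hG : NH_GEO) {A S : Set (E 2)} {r : ℝ} (H : Setup A S r)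
    {φ : ℝ} {s : Fin 3 → E 2} {a : Fin 2 → ℝ} {v : Fin 5 → E 2} {c : Fin 5 → ℝ}
    (G : Geo φ s a v c) (I : InS S φ s v) (i : Fin 5) {K : Set (E 2)} (hK : IsPreconnected K)
    (hKS : K ⊆ S) (hKT : ∀ z ∈ K, z ∈ segment ℝ (s (ft i)) (v i) → z = s (ft i) ∨ z = v i)
    (h1 : s (ft i) ∈ K) (h2 : v i ∈ K) : False := by
  obtain ⟨-, -, tb, hsplit, hrest⟩ := hG φ s a v c G
  obtain ⟨rc, -, -, rv, ri⟩ := hrest i
  have hT : segment ℝ (s (ft i)) (v i) ⊆ tree s v := by
    rw [hsplit i]; exact subset_union_right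
  have hcomp : IsCompact (segment ℝ (s (ft i)) (v i)) := by
    rw [segment_eq_image']
    exact isCompact_Icc.image (by fun_prop)
  classical
  have key := hE A S r H.L H.cl (segment ℝ (s (ft i)) (v i)) ∅ K {s (ft i), v i} hcomp
    (convex_segment _ _).isPreconnected (hT.trans I.sub)
    ((hT.trans tb).trans (closedBall_subset_ball H.r1))
    ⟨s (ft i), by simp⟩
    (by
      intro z hz
      simp only [Finset.mem_insert, Finset.mem_singleton] at hz
      rcases hz with rfl | rfl
      · exact left_mem_segment _ _ _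
      · exact right_mem_segment _ _ _)
    (by
      intro z hz hzV
      simp only [Finset.mem_insert, Finset.mem_singleton, not_or] at hzV
      have hzr : z ∉ rest s v i := fun h => hzV.1 (ri ⟨h, hz⟩)
      obtain ⟨ε, hε, hl⟩ := I.loc z (hT hz) (by
        intro j hj
        by_cases hji : j = i
        · exact hzV.2 (by rw [hj, hji])
        · exact hzr (hj ▸ rv j hji))
      obtain ⟨δ, hδ, hd⟩ := Metric.isOpen_iff.1 rc.isClosed.isOpen_compl z hzr
      refine ⟨min ε δ, lt_min hε hδ, ?_⟩
      rintro w ⟨hwS, hwb⟩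
      have h3 : w ∈ tree s v := hl ⟨hwS, ball_subset_ball (min_le_left _ _) hwb⟩
      have h4 : w ∉ rest s v i := hd (ball_subset_ball (min_le_right _ _) hwb)
      rw [hsplit i] at h3
      exact h3.resolve_left h4)
    isCompact_empty (empty_subset _) hKS
    (by
      intro z hz hzT
      simp only [Finset.mem_insert, Finset.mem_singleton]
      exact hKT z hz hzT)
    (by rw [empty_union]; exact hK)
    (by
      intro z hz
      simp only [Finset.mem_insert, Finset.mem_singleton] at hz
      rw [empty_union]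
      rcases hz with rfl | rfl
      · exact h1
      · exact h2)
  rw [measure_empty, hausdorffMeasure_segment, nonpos_iff_eq_zero, edist_eq_zero] at key
  have hv := G.vd i
  rw [← key] at hv
  have h5 : c i • dv φ i = 0 := by
    have := hv.symm
    rwa [add_eq_left] at this
  have h6 := congrArg norm h5
  rw [norm_smul, dv, norm_ev, mul_one, norm_zero, norm_eq_zero] at h6
  exact (G.cpos i).ne' h6

end Disj27

theorem disj (hE : NH_EXCH) (hG : NH_GEO) : NH_DISJ := by
  intro A S r H φ s a v c G I K pp pm F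
  obtain ⟨-, -, tb, hsplit, hrest⟩ := hG φ s a v c G
  have hT : ∀ i, K i ∩ tree s v ⊆ {v i} := by
    rintro i w ⟨hw, hwt⟩
    by_contra hne
    rw [mem_singleton_iff] at hne
    obtain ⟨-, rp, rs, -, ri⟩ := hrest i
    have hwr : w ∈ rest s v i := by
      rw [hsplit i] at hwt
      exact hwt.resolve_right fun h => hne (Disj27.own G F i hw h)
    refine Disj27.bridge hE hG H G I i (K := K i ∪ rest s v i)
      ((F.conn i).union w hw hwr rp)
      (union_subset (F.sub i) ((show rest s v i ⊆ tree s v by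
        rw [hsplit i]; exact subset_union_left).trans I.sub)) ?_ (Or.inr (rs _)) (Or.inl (F.vm i))
    rintro z (hz | hz) hzT
    · exact Or.inr (Disj27.own G F i hz hzT)
    · exact Or.inl (ri ⟨hz, hzT⟩)
  refine ⟨hT, ?_⟩
  intro i j hij
  rw [Set.disjoint_left]
  intro w hwi hwj
  obtain ⟨-, rp, rs, rv, ri⟩ := hrest i
  have hj : v j ∈ rest s v i := rv j (Ne.symm hij)
  have hc : IsPreconnected (K i ∪ K j ∪ rest s v i) :=
    ((F.conn i).union w hwi hwj (F.conn j)).union (v j) (Or.inr (F.vm j)) hj rp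
  refine Disj27.bridge hE hG H G I i (K := K i ∪ K j ∪ rest s v i) hc
    (union_subset (union_subset (F.sub i) (F.sub j)) ((show rest s v i ⊆ tree s v by
      rw [hsplit i]; exact subset_union_left).trans I.sub)) ?_ (Or.inr (rs _))
    (Or.inl (Or.inl (F.vm i)))
  rintro z ((hz | hz) | hz) hzT
  · exact Or.inr (Disj27.own G F i hz hzT)
  · have h1 : z ∈ tree s v := by rw [hsplit i]; exact Or.inr hzT
    have h2 : z = v j := hT j ⟨hz, h1⟩
    subst h2
    exact Or.inl (ri ⟨hj, hzT⟩)
  · exact Or.inl (ri ⟨hz, hzT⟩)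

end NH
end H11ST
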